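import Pool.Agent.H19.SYA.TB
import Pool.Agent.H2.ST.Basic2

/-!
# Not both invariants of a pair are at least two (MMP)
-/

set_option autoImplicit false

open MvPolynomial Pool.Agent.H2.ST Pool.Agent.H15.TG Pool.Agent.H19.SYA

namespace Pool.Agent.H13.SYA

/-- components of a polynomial expression in homogeneous elements -/
theorem cmp_aeval {k A : Type} [Field k] [CommRing A] [Algebra k A] {W : ℤ → Submodule k A}
    (h : Gr W) {n : ℕ} (f : Fin n → A) (ω : Fin n → ℤ) (hf : ∀ i, f i ∈ W (ω i))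
    (P : MvPolynomial (Fin n) k) (e : ℤ) :
    cmp h (aeval f P) e = aeval f (weightedHomogeneousComponent ω e P) := by
  classical
  induction P using MvPolynomial.induction_on' with
  | add p q hp hq => rw [map_add, map_add, Finsupp.add_apply, hp, hq, map_add, map_add]
  | monomial d a =>
    have h1 : aeval f (monomial d a) ∈ W (Finsupp.weight ω d) := by
      rw [aeval_monomial]
      have h2 : (d.prod fun i k => f i ^ k) ∈ W (Finsupp.weight ω d) := by
        rw [Finsupp.weight_apply]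
        exact prod_mem_gr h _ _ _ fun i _ => pow_mem_gr h (hf i) _
      have h3 := h.mul _ _ _ _ (algebraMap_mem_gr h a) h2
      rwa [zero_add] at h3
    rw [cmp_of_mem h h1, Finsupp.single_apply]
    split_ifs with hc
    · congr 1
      rw [← hc]
      exact ((weightedHomogeneousComponent_of_mem
        (isWeightedHomogeneous_monomial ω d a rfl)).trans (if_pos rfl)).symm
    · have h4 := weightedHomogeneousComponent_of_mem (m := e)
        (isWeightedHomogeneous_monomial ω d a (m := Finsupp.weight ω d) rfl)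
      rw [if_neg (fun hh => hc hh.symm)] at h4
      erw [h4]
      rw [map_zero]

/-- `X i ^ j` divides `P` only if all exponents are at least `j` -/
theorem le_of_pow_dvd {k : Type} [Field k] {n : ℕ} {i : Fin n} {j : ℕ}
    {P : MvPolynomial (Fin n) k} (h : X i ^ j ∣ P) {d : Fin n →₀ ℕ} (hd : coeff d P ≠ 0) :
    j ≤ d i := by
  classical
  obtain ⟨R, rfl⟩ := h
  rw [X_pow_eq_monomial, coeff_monomial_mul'] at hd
  by_contra hlt
  refine hd (if_neg fun hle => hlt ?_)
  have := hle i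
  rwa [Finsupp.single_eq_same] at this

/-- a polynomial in four variables as a polynomial in the first one -/
theorem aeval_cons {k A : Type} [Field k] [CommRing A] [Algebra k A] (S : A) (g : Fin 3 → A)
    (P : MvPolynomial (Fin 4) k) :
    aeval (Fin.cons S g : Fin 4 → A) P =
      Polynomial.eval₂ (aeval g : MvPolynomial (Fin 3) k →ₐ[k] A).toRingHom S
        (finSuccEquiv k 3 P) := by
  induction P using MvPolynomial.induction_on with
  | C a =>
    have h1 : finSuccEquiv k 3 (C a) = Polynomial.C (C a) :=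
      (finSuccEquiv k 3).commutes a
    rw [h1, Polynomial.eval₂_C]
    exact ((aeval (Fin.cons S g : Fin 4 → A) : MvPolynomial (Fin 4) k →ₐ[k] A).commutes a).trans
      ((aeval g : MvPolynomial (Fin 3) k →ₐ[k] A).commutes a).symm
  | add p q hp hq => rw [map_add, map_add, Polynomial.eval₂_add, hp, hq]
  | mul_X p i hp =>
    rw [map_mul, map_mul, Polynomial.eval₂_mul, hp, aeval_X]
    congr 1
    refine Fin.cases ?_ (fun j => ?_) i
    · rw [Fin.cons_zero, finSuccEquiv_X_zero, Polynomial.eval₂_X]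
    · rw [Fin.cons_succ, finSuccEquiv_X_succ, Polynomial.eval₂_C]
      exact (aeval_X g j).symm

/-- expansion with respect to the exchanged pair -/
theorem swap_exp {k A : Type} [Field k] [CommRing A] [Algebra k A] (p q H S S' G : A)
    (a' : MvPolynomial (Fin 3) k) (b' : k) (D : ℕ) (Q : ℕ → MvPolynomial (Fin 3) k)
    (hG : G = ∑ i ∈ Finset.range (D + 1), aeval ![p, q, H] (Q i) * S ^ i)
    (hS : q * S = aeval ![q, p, H] a' + algebraMap k A b' * S') :
    ∃ Q' : ℕ → MvPolynomial (Fin 3) k,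
      (q * p) ^ D * G = ∑ i ∈ Finset.range (D + 1), aeval ![q, p, H] (Q' i) * S' ^ i ∧
      Q' D = C (b' ^ D) * (X 1 ^ D * rename (Equiv.swap (0 : Fin 3) 1) (Q D)) := by
  classical
  set f : Polynomial (MvPolynomial (Fin 3) k) := ∑ i ∈ Finset.range (D + 1),
    Polynomial.C (rename (Equiv.swap (0 : Fin 3) 1) (Q i) * X 1 ^ D * X 0 ^ (D - i)) *
      (Polynomial.C a' + Polynomial.C (C b') * Polynomial.X) ^ i with hf
  have hlin : (Polynomial.C a' + Polynomial.C (C b') * Polynomial.X :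
      Polynomial (MvPolynomial (Fin 3) k)).natDegree ≤ 1 := by
    rw [add_comm]
    exact Polynomial.natDegree_linear_le
  have hpw : ∀ i : ℕ, ((Polynomial.C a' + Polynomial.C (C b') * Polynomial.X :
      Polynomial (MvPolynomial (Fin 3) k)) ^ i).natDegree ≤ i := fun i =>
    Polynomial.natDegree_pow_le.trans ((Nat.mul_le_mul_left i hlin).trans_eq (mul_one i))
  have hdeg : f.natDegree < D + 1 := by
    refine Nat.lt_succ_of_le (Polynomial.natDegree_sum_le_of_forall_le _ _ fun i hi => ?_)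
    have hi' := Finset.mem_range.1 hi
    exact (Polynomial.natDegree_C_mul_le _ _).trans ((hpw i).trans (by omega))
  have hcomp : ∀ R : MvPolynomial (Fin 3) k,
      aeval ![q, p, H] (rename (Equiv.swap (0 : Fin 3) 1) R) = aeval ![p, q, H] R := by
    intro R
    rw [aeval_rename]
    congr 2
    funext i
    fin_cases i
    · show ![q, p, H] (Equiv.swap (0 : Fin 3) 1 0) = p
      rw [Equiv.swap_apply_left]; rfl
    · show ![q, p, H] (Equiv.swap (0 : Fin 3) 1 1) = q
      rw [Equiv.swap_apply_right]; rfl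
    · show ![q, p, H] (Equiv.swap (0 : Fin 3) 1 2) = H
      rw [Equiv.swap_apply_of_ne_of_ne (by decide) (by decide)]; rfl
  refine ⟨fun i => f.coeff i, ?_, ?_⟩
  · have h1 : Polynomial.eval₂ (aeval ![q, p, H] : MvPolynomial (Fin 3) k →ₐ[k] A).toRingHom S' f =
        ∑ i ∈ Finset.range (D + 1), aeval ![q, p, H] (f.coeff i) * S' ^ i := by
      rw [Polynomial.eval₂_eq_sum_range' _ hdeg]
      rfl
    rw [← h1, hf, Polynomial.eval₂_finsetSum, hG, Finset.mul_sum]
    refine Finset.sum_congr rfl fun i hi => ?_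
    have hi' := Finset.mem_range.1 hi
    rw [Polynomial.eval₂_mul, Polynomial.eval₂_pow, Polynomial.eval₂_add, Polynomial.eval₂_mul,
      Polynomial.eval₂_C, Polynomial.eval₂_C, Polynomial.eval₂_C, Polynomial.eval₂_X]
    have h2 : (aeval ![q, p, H] : MvPolynomial (Fin 3) k →ₐ[k] A).toRingHom a' +
        (aeval ![q, p, H] : MvPolynomial (Fin 3) k →ₐ[k] A).toRingHom (C b') * S' = q * S := by
      rw [hS]
      congr 2
      exact (aeval ![q, p, H] : MvPolynomial (Fin 3) k →ₐ[k] A).commutes b'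
    have h3 : (aeval ![q, p, H] : MvPolynomial (Fin 3) k →ₐ[k] A).toRingHom
        (rename (Equiv.swap (0 : Fin 3) 1) (Q i) * X 1 ^ D * X 0 ^ (D - i)) =
        aeval ![p, q, H] (Q i) * p ^ D * q ^ (D - i) := by
      show (aeval ![q, p, H] : MvPolynomial (Fin 3) k →ₐ[k] A)
        (rename (Equiv.swap (0 : Fin 3) 1) (Q i) * X 1 ^ D * X 0 ^ (D - i)) = _
      rw [map_mul, map_mul, hcomp, map_pow, map_pow, aeval_X, aeval_X]
      rfl
    rw [h2, h3]
    have h4 : q ^ D = q ^ (D - i) * q ^ i := by rw [← pow_add, Nat.sub_add_cancel (by omega)]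
    rw [mul_pow, mul_pow, h4]
    ring
  · show f.coeff D = _
    rw [hf, Polynomial.finsetSum_coeff, Finset.sum_range_succ, Finset.sum_eq_zero, zero_add,
      Polynomial.coeff_C_mul, Nat.sub_self, pow_zero, mul_one]
    · have h5 := Polynomial.coeff_pow_of_natDegree_le (m := D) hlin
      rw [mul_one] at h5
      rw [h5, Polynomial.coeff_add, Polynomial.coeff_C_mul, Polynomial.coeff_X_one,
        Polynomial.coeff_C_of_ne_zero one_ne_zero, zero_add, mul_one, ← C_pow]
      ring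
    · intro i hi
      have hi' := Finset.mem_range.1 hi
      rw [Polynomial.coeff_C_mul, Polynomial.coeff_eq_zero_of_natDegree_lt
        ((hpw i).trans_lt hi'), mul_zero]

/-- bound from the inequality of `T_VIP` -/
theorem bound_of_vip {D w m K1 j N k1 : ℕ} (hw : 0 < w) (hm : 2 ≤ m) (hK : 1 ≤ K1)
    (h : (D : ℤ) * (w * (((m : ℤ) - Nat.gcd m K1) * K1 + Nat.gcd m K1 - 1) - 1) ≤
      m * ((j : ℤ) - N + k1 * D)) : (N : ℤ) - k1 * D ≤ j := by
  have hg : Nat.gcd m K1 ≤ m := Nat.gcd_le_left K1 (by omega)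
  set g : ℕ := Nat.gcd m K1 with hgd
  have hg' : (g : ℤ) ≤ m := by exact_mod_cast hg
  have hK' : (1 : ℤ) ≤ K1 := by exact_mod_cast hK
  have hm' : (2 : ℤ) ≤ m := by exact_mod_cast hm
  have hw' : (1 : ℤ) ≤ w := by exact_mod_cast hw
  have h1 : (m : ℤ) - g ≤ ((m : ℤ) - g) * K1 := by nlinarith
  have h2 : (1 : ℤ) ≤ ((m : ℤ) - g) * K1 + g - 1 := by linarith
  have h3 : (1 : ℤ) ≤ w * (((m : ℤ) - g) * K1 + g - 1) := by nlinarith
  have h4 : (0 : ℤ) ≤ (D : ℤ) * (w * (((m : ℤ) - g) * K1 + g - 1) - 1) :=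
    mul_nonneg (Int.natCast_nonneg D) (by linarith)
  have h5 : (0 : ℤ) ≤ m * ((j : ℤ) - N + k1 * D) := h4.trans h
  have h6 : (0 : ℤ) ≤ (j : ℤ) - N + k1 * D := by
    by_contra hc
    have := mul_neg_of_pos_of_neg (show (0 : ℤ) < m by linarith) (not_le.1 hc)
    linarith
  linarith

theorem pf_MMP (hVIP : T_VIP) (hEXX : T_EXX) (hSWQ : T_SWQ) (hPAI : T_PAI) (hNGW : T_NGW) :
    T_MMP := by
  classical
  intro k _ _ _ W H y wy p q S α β k1 l1 L L' _ _ _ _ Θ v w m Θ' v' w' m' hy hP hC hC' hm hm'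
  obtain ⟨n, F, hn, hF, hF0⟩ := hNGW k W H y wy hy
  obtain ⟨N, P, hPe⟩ := hP.gen F
  have hG : Gr W := hy.toGr
  have hp0 : p ≠ 0 := hC.pg.ne_zero
  have hq0 : q ≠ 0 := hC'.pg.ne_zero
  -- the polynomial with `S` as first variable
  set P1 : MvPolynomial (Fin 4) k := rename ![1, 2, 3, 0] P with hP1
  have hev : aeval (Fin.cons S ![p, q, H] : Fin 4 → Pol k 2) P1 = (p * q) ^ N * F := by
    rw [hPe, hP1, aeval_rename]
    congr 2
    funext i
    fin_cases i <;> rfl
  have hai : AlgebraicIndependent k (Fin.cons S ![p, q, H] : Fin 4 → Pol k 2) := by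
    have h1 := (hPAI k W H y wy p q S α β k1 l1 hy hP).comp (![3, 0, 1, 2] : Fin 4 → Fin 4)
      (by decide)
    have h2 : (Fin.cons S ![p, q, H] : Fin 4 → Pol k 2) = ![p, q, H, S] ∘ ![3, 0, 1, 2] := by
      funext i
      fin_cases i <;> rfl
    rw [h2]
    exact h1
  set ω : Fin 4 → ℤ := ![k1 * α + l1 * β - β, α, β, 0] with hω
  have hfW : ∀ i, (Fin.cons S ![p, q, H] : Fin 4 → Pol k 2) i ∈ W (ω i) := by
    intro i
    fin_cases i
    · exact hP.hS
    · exact hP.hg
    · exact hP.hf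
    · exact hy.H0
  have hGW : (p * q) ^ N * F ∈ W ((N : ℤ) * (α + β) + n) := by
    have h1 := pow_mem_gr hG (hG.mul _ _ _ _ hP.hg hP.hf) N
    rw [nsmul_eq_mul] at h1
    exact hG.mul _ _ _ _ h1 hF
  have hwh : weightedHomogeneousComponent ω ((N : ℤ) * (α + β) + n) P1 = P1 := by
    refine hai ?_
    rw [← cmp_aeval hG _ ω hfW, hev, cmp_of_mem hG hGW, Finsupp.single_eq_same]
  have hwt : ∀ d : Fin 4 →₀ ℕ, coeff d P1 ≠ 0 →
      Finsupp.weight ω d = (N : ℤ) * (α + β) + n := by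
    intro d hd
    by_contra hc
    rw [← hwh, coeff_weightedHomogeneousComponent, if_neg hc] at hd
    exact hd rfl
  have hP0 : P1 ≠ 0 := by
    intro h0
    rw [h0, map_zero] at hev
    exact mul_ne_zero (pow_ne_zero _ (mul_ne_zero hp0 hq0)) hF0 hev.symm
  -- expansion in powers of `S`
  set f := finSuccEquiv k 3 P1 with hf
  have hf0 : f ≠ 0 := by
    intro h0
    exact hP0 ((finSuccEquiv k 3).injective (by rw [← hf, h0, map_zero]))
  set D : ℕ := f.natDegree with hD
  set Q : ℕ → MvPolynomial (Fin 3) k := fun i => f.coeff i with hQ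
  have hQD : Q D ≠ 0 := by
    show f.coeff f.natDegree ≠ 0
    exact Polynomial.leadingCoeff_ne_zero.2 hf0
  have hexp : (p * q) ^ N * F =
      ∑ i ∈ Finset.range (D + 1), aeval ![p, q, H] (Q i) * S ^ i := by
    rw [← hev, aeval_cons, Polynomial.eval₂_eq_sum_range]
    rfl
  -- first bound
  obtain ⟨K1, c, κ, ζ, hEx⟩ := hEXX k W H y wy p q S α β k1 l1 L Θ v w m hy hP hC
  obtain ⟨j, hj, hK1, hin⟩ := hVIP k W H y wy p q S α β k1 l1 L Θ v w m K1 c κ ζ hy hP hC hEx hm
    F N D Q hexp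
  have hb1 := bound_of_vip hC.wp hm hK1 hin
  -- the exchanged pair
  have hP' := hSWQ k W H y wy p q S α β k1 l1 hy hP hC'.pg
  set S' : Pol k 2 := C (1 / (α : k)) * (p ^ k1 * q ^ l1 * H - C (β : k) * q * S) with hS'
  have hα : (α : k) ≠ 0 := Int.cast_ne_zero.2 hC.pa.ne'
  have hβ : (β : k) ≠ 0 := Int.cast_ne_zero.2 hC.pb.ne'
  have hab : (C (1 / (β : k)) : Pol k 2) * C (β : k) = 1 := by
    rw [← C_mul, one_div_mul_cancel hβ, C_1]
  have haa : (C (α : k) : Pol k 2) * C (1 / (α : k)) = 1 := by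
    rw [← C_mul, mul_one_div_cancel hα, C_1]
  have hlin : q * S = aeval ![q, p, H] (C (1 / (β : k)) * (X 1 ^ k1 * X 0 ^ l1 * X 2) :
      MvPolynomial (Fin 3) k) + algebraMap k (Pol k 2) (-((α : k) / β)) * S' := by
    have h1 : aeval ![q, p, H] (C (1 / (β : k)) * (X 1 ^ k1 * X 0 ^ l1 * X 2) :
        MvPolynomial (Fin 3) k) = C (1 / (β : k)) * (p ^ k1 * q ^ l1 * H) := by
      rw [map_mul, map_mul, map_mul, map_pow, map_pow, aeval_X, aeval_X, aeval_X]
      congr 1
      exact (aeval ![q, p, H] : MvPolynomial (Fin 3) k →ₐ[k] Pol k 2).commutes _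
    have h2 : algebraMap k (Pol k 2) (-((α : k) / β)) =
        -(C (1 / (β : k)) * C (α : k)) := by
      rw [← C_mul, ← C_neg]
      show C _ = C _
      congr 1
      ring
    rw [h1, h2, hS']
    linear_combination (-(q * S)) * hab +
      (C (1 / (β : k)) * (p ^ k1 * q ^ l1 * H - C (β : k) * q * S)) * haa
  obtain ⟨Q', hQ', hQ'D⟩ := swap_exp p q H S S' ((p * q) ^ N * F) _ _ D Q hexp hlin
  have hexp' : (q * p) ^ (N + D) * F =
      ∑ i ∈ Finset.range (D + 1), aeval ![q, p, H] (Q' i) * S' ^ i := by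
    rw [← hQ', pow_add, mul_comm p q]
    ring
  obtain ⟨K1', c', κ', ζ', hEx'⟩ := hEXX k W H y wy q p S' β α l1 (k1 + 1) L' Θ' v' w' m' hy hP'
    hC'
  obtain ⟨j', hj', hK1', hin'⟩ := hVIP k W H y wy q p S' β α l1 (k1 + 1) L' Θ' v' w' m' K1' c' κ'
    ζ' hy hP' hC' hEx' hm' F (N + D) D Q' hexp'
  have hb2 := bound_of_vip hC'.wp hm' hK1' hin'
  -- a monomial
  obtain ⟨d, hd⟩ := ne_zero_iff.1 hQD
  have hd0 : j ≤ d 0 := le_of_pow_dvd hj hd
  have hd1 : j' ≤ d 1 := by
    have h1 : coeff (Finsupp.single 1 D + d.mapDomain (Equiv.swap (0 : Fin 3) 1)) (Q' D) ≠ 0 := by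
      rw [hQ'D, coeff_C_mul, X_pow_eq_monomial, coeff_monomial_mul, one_mul,
        coeff_rename_mapDomain _ (Equiv.injective _)]
      exact mul_ne_zero (pow_ne_zero _ (neg_ne_zero.2 (div_ne_zero hα hβ))) hd
    have h2 := le_of_pow_dvd hj' h1
    rw [Finsupp.add_apply, Finsupp.single_eq_of_ne (by decide), zero_add] at h2
    have h3 : (d.mapDomain (Equiv.swap (0 : Fin 3) 1)) 0 = d 1 := by
      have h4 := Finsupp.mapDomain_apply (Equiv.injective (Equiv.swap (0 : Fin 3) 1)) d 1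
      rwa [Equiv.swap_apply_right] at h4
    rwa [h3] at h2
  have hwd : ((D : ℤ) * (k1 * α + l1 * β - β) + d 0 * α + d 1 * β) =
      (N : ℤ) * (α + β) + n := by
    have h1 : coeff (d.cons D) P1 ≠ 0 := by
      rw [← finSuccEquiv_coeff_coeff]
      exact hd
    rw [← hwt _ h1, Finsupp.weight_apply, Finsupp.sum_fintype _ _ (fun i => by simp),
      Fin.sum_univ_four]
    simp only [hω, nsmul_eq_mul]
    have e0 : (Finsupp.cons D d : Fin 4 →₀ ℕ) 0 = D := Finsupp.cons_zero _ _
    have e1 : (Finsupp.cons D d : Fin 4 →₀ ℕ) 1 = d 0 := Finsupp.cons_succ 0 _ _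
    have e2 : (Finsupp.cons D d : Fin 4 →₀ ℕ) 2 = d 1 := Finsupp.cons_succ 1 _ _
    rw [e0, e1, e2]
    simp only [Matrix.cons_val_zero, Matrix.cons_val_one, Matrix.cons_val]
    ring
  have hd0' : (N : ℤ) - k1 * D ≤ d 0 := hb1.trans (by exact_mod_cast hd0)
  have hd1' : ((N + D : ℕ) : ℤ) - l1 * D ≤ d 1 := hb2.trans (by exact_mod_cast hd1)
  have h1 := mul_le_mul_of_nonneg_right hd0' hC.pa.le
  have h2 := mul_le_mul_of_nonneg_right hd1' hC.pb.le
  push_cast at h2
  nlinarith

end Pool.Agent.H13.SYA
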