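import Pool.Agent.H19.SYA.TA
import Pool.Agent.H19.SYA.TB
import Pool.Agent.H2.ST.Basic2

/-!
# Pairs from two primes (PRQ)
-/

set_option autoImplicit false

open MvPolynomial Pool.Agent.H2.ST Pool.Agent.H15.TG Pool.Agent.H19.SYA

namespace Pool.Agent.H13.SYA

theorem nc_of_prime {k : Type} [Field k] {f : Pol k 2} (hf : Prime f) : NC f := by
  rintro ⟨c, rfl⟩
  by_cases hc : c = 0
  · exact hf.ne_zero (by rw [hc, map_zero])
  · exact hf.not_isUnit ((isUnit_iff_ne_zero.2 hc).map C)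

/-- independence from a nonzero determinant of derivations -/
theorem indep_of_det (hAI : T_AI1) (k : Type) [Field k] [CharZero k] (D : Fin 2 → Derivation k
    (Pol k 2) (Pol k 2)) (z : Fin 2 → Pol k 2)
    (hd : D 0 (z 0) * D 1 (z 1) - D 0 (z 1) * D 1 (z 0) ≠ 0) : AlgebraicIndependent k z := by
  have h1 : Imod k (⊥ : Ideal (Pol k 2)) (fun i : Fin 0 => (Fin.elim0 i : Pol k 2)) := by
    intro P hP
    rw [Ideal.mem_bot, MvPolynomial.eq_C_of_isEmpty P, aeval_C] at hP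
    rw [MvPolynomial.eq_C_of_isEmpty P]
    have h2 : coeff 0 P = 0 := by
      have h3 : (algebraMap k (Pol k 2)) (coeff 0 P) = algebraMap k (Pol k 2) 0 := by
        rw [hP, map_zero]
      exact (algebraMap k (Pol k 2)).injective h3
    rw [h2, map_zero]
  have h2 := hAI k (Pol k 2) (Fin 0) (Fin 2) ⊥ (fun i : Fin 0 => (Fin.elim0 i : Pol k 2)) z D
    Ideal.isPrime_bot (fun i x hx => by
      rw [Ideal.mem_bot] at hx ⊢
      rw [hx, map_zero]) (fun i j => Fin.elim0 j) (by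
      rw [Ideal.mem_bot, Matrix.det_fin_two]
      exact hd) h1
  rw [algebraicIndependent_iff]
  intro P hP
  have h3 := h2 (rename Sum.inr P) (by
    rw [Ideal.mem_bot, aeval_rename, Sum.elim_comp_inr]
    exact hP)
  exact rename_injective _ Sum.inr_injective (by rw [h3, map_zero])

theorem pf_PRQ (hAI : T_AI1) (hGN : T_GN4) : T_PRQ := by
  intro k _ _ _ W H y w K g e ω l M r S hy hcs hS h0 h1
  have hcc : CC W K := hcs.toCC
  have hG : Gr W := hy.toGr
  have hp0 : Prime (g 0) := hcs.pg 0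
  have hp1 : Prime (g 1) := hcs.pg 1
  have hw0 : (0 : ℤ) < (ω 0 : ℤ) := hcc.ps _ _ (hcs.gK 0) (hcs.gw 0) (nc_of_prime hp0)
  have hw1 : (0 : ℤ) < (ω 1 : ℤ) := hcc.ps _ _ (hcs.gK 1) (hcs.gw 1) (nc_of_prime hp1)
  have hne : g 0 * g 1 ≠ 0 := mul_ne_zero hp0.ne_zero hp1.ne_zero
  have hr : (ω 1 : ℤ) + r = M * ω 0 + M * ω 1 := by
    have a1 : br (g 1) S ∈ W ((ω 1 : ℤ) + r) := hy.pbr _ _ _ _ (hcs.gw 1) hS
    have a2 : (g 0 * g 1) ^ M ∈ W (M • ((ω 0 : ℤ) + ω 1)) :=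
      pow_mem_gr hG (hG.mul _ _ _ _ (hcs.gw 0) (hcs.gw 1)) M
    rw [h1] at a1
    have a3 := wt_uniq hG a1 a2 (pow_ne_zero M hne)
    rw [a3, nsmul_eq_mul]
    ring
  have hai : AlgebraicIndependent k ![g 0, g 1] := by
    refine indep_of_det hAI k ![ad H, ad S] ![g 0, g 1] ?_
    have b1 : ad H (g 0) = -((((ω 0 : ℕ) : ℤ) : k) • g 0) := by
      rw [ad_apply, br_anti, hy.HE _ _ (hcs.gw 0)]
    have b2 : ad S (g 1) = -((g 0 * g 1) ^ M) := by
      rw [ad_apply, br_anti, h1]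
    have b3 : ad S (g 0) = 0 := by
      rw [ad_apply, br_anti, h0, neg_zero]
    change ad H (g 0) * ad S (g 1) - ad H (g 1) * ad S (g 0) ≠ 0
    rw [b1, b2, b3, mul_zero, sub_zero, neg_mul_neg]
    refine mul_ne_zero (smul_ne_zero ?_ hp0.ne_zero) (pow_ne_zero M hne)
    exact Int.cast_ne_zero.2 hw0.ne'
  have hCp : Cp W (g 0) (g 1) (ω 0) (ω 1) :=
    { hp := hcs.gw 0
      hq := hcs.gw 1
      pa := hw0
      pb := hw1
      lp := hcc.ln _ (hcs.gK 0)
      lq := hcc.ln _ (hcs.gK 1)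
      pq := hcc.cm _ (hcs.gK 0) _ (hcs.gK 1)
      ai := hai }
  have hgen : ∀ F : Pol k 2, ∃ (N : ℕ) (P : MvPolynomial (Fin 4) k),
      (g 0 * g 1) ^ N * F = aeval ![g 0, g 1, H, S] P := by
    intro F
    obtain ⟨N, hN⟩ := hGN k W H y w K (g 0) (g 1) (g 0 * g 1) S (ω 0) (ω 1) r M hy hcc hCp
      (hcs.gK 0) (hcs.gK 1) (K.mul_mem (hcs.gK 0) (hcs.gK 1)) (dvd_mul_right _ _) hne hS h0 h1 F
    have c1 : Algebra.adjoin k ((K : Set (Pol k 2)) ∪ {H, S}) ≤
        Algebra.adjoin k (Set.range ![g 0, g 1, H, S]) := by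
      rw [Algebra.adjoin_le_iff]
      rintro x (hx | hx | hx)
      · have c2 := hcs.gen x hx
        refine Algebra.adjoin_mono ?_ c2
        rintro z ⟨i, rfl⟩
        fin_cases i
        · exact ⟨0, rfl⟩
        · exact ⟨1, rfl⟩
      · rw [hx]
        exact Algebra.subset_adjoin ⟨2, rfl⟩
      · rw [Set.mem_singleton_iff.1 hx]
        exact Algebra.subset_adjoin ⟨3, rfl⟩
    have c3 := c1 hN
    rw [Algebra.adjoin_range_eq_range_aeval] at c3
    obtain ⟨P, hP⟩ := c3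
    exact ⟨N, P, hP.symm⟩
  exact
    { pg := hp0
      hg := hcs.gw 0
      hf := hcs.gw 1
      pa := hw0
      pb := hw1
      lg := hcc.ln _ (hcs.gK 0)
      lf := hcc.ln _ (hcs.gK 1)
      gf := hcc.cm _ (hcs.gK 0) _ (hcs.gK 1)
      nd := hcs.na 0 1 (by decide)
      hS := by
        have d1 : (M : ℤ) * (ω 0 : ℤ) + M * ω 1 - ω 1 = r := by
          rw [← hr]
          ring
        rw [d1]
        exact hS
      pS := h0
      qS := by rw [h1, mul_pow]
      gen := hgen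
      cop := by
        obtain ⟨c, hc⟩ := hcs.one
        rw [Fin.sum_univ_two] at hc
        exact ⟨c 0, c 1, hc⟩ }

end Pool.Agent.H13.SYA
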