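import Pool.Agent.H19.SYA.TB
import Pool.Agent.H2.ST.Basic2

/-!
# Roots of `q` modulo powers of `p` (RHO)
-/

set_option autoImplicit false

open MvPolynomial Pool.Agent.H2.ST Pool.Agent.H15.TG Pool.Agent.H19.SYA

namespace Pool.Agent.H13.SYA

/-- Newton's step in a commutative ring -/
theorem newton_dvd {R : Type} [CommRing R] (a d c : R) (m : ℕ) (hm : 0 < m)
    (hc : (m : R) * c = 1) : d ^ 2 ∣ (a + d) * (a - c * d) ^ m - a * a ^ m := by
  obtain ⟨e, he⟩ := Polynomial.powAddExpansion a (-(c * d)) m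
  have h1 : a * a ^ (m - 1) = a ^ m := by
    rw [← pow_succ', Nat.sub_add_cancel hm]
  refine ⟨-a ^ (m - 1) + (a + d) * e * c ^ 2, ?_⟩
  rw [sub_eq_add_neg a (c * d), he]
  linear_combination (d * a ^ (m - 1) * (a + d)) * (-hc) + (-d) * h1

theorem rh_weaken {k : Type} [Field k] {W : ℤ → Submodule k (Pol k 2)} {p q : Pol k 2} {β : ℤ}
    {L : Type} [Field L] [Algebra k L] {Θ : Pol k 2 →ₐ[k] L} {v : Fin 3 → L} {w m J J' N : ℕ}
    {F : Pol k 2} (h : Rh W p q β Θ v w m J N F) (hJ : J' ≤ J) :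
    Rh W p q β Θ v w m J' N F :=
  ⟨h.hF, h.tF, (pow_dvd_pow p hJ).trans h.dv⟩

theorem rh_double {k : Type} [Field k] [CharZero k] {W : ℤ → Submodule k (Pol k 2)}
    {H p q : Pol k 2} {α β : ℤ} {L : Type} [Field L] [Algebra k L] {Θ : Pol k 2 →ₐ[k] L}
    {v : Fin 3 → L} {w m : ℕ} (hG : Gr W) (hC : Cht W H p q α β Θ v w m) {J N : ℕ} {F : Pol k 2}
    (hJ : 1 ≤ J) (h : Rh W p q β Θ v w m J N F) :
    ∃ (N' : ℕ) (F' : Pol k 2), Rh W p q β Θ v w m (J * 2) N' F' ∧
      p ^ J ∣ F' * q ^ N - F * q ^ N' := by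
  set a : Pol k 2 := q ^ (N * m + 1) with ha
  set d : Pol k 2 := F ^ m - a with hd
  have hmk : (m : k) ≠ 0 := Nat.cast_ne_zero.2 hC.mp.ne'
  have hcm : ((m : ℕ) : Pol k 2) * C (1 / (m : k)) = 1 := by
    rw [← C_eq_coe_nat, ← C_mul, mul_one_div_cancel hmk, C_1]
  have hpd : p ^ J ∣ d := h.dv
  have hd0 : Θ d = 0 := (hC.ker d).2 ((dvd_pow_self p (by omega)).trans hpd)
  have hFm : F ^ m = a + d := by
    rw [hd]
    ring
  have haW : a ∈ W (((N * m + 1 : ℕ) : ℤ) * β) := by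
    have g := pow_mem_gr hG hC.hf (N * m + 1)
    rw [nsmul_eq_mul] at g
    exact g
  have hdW : d ∈ W (((N * m + 1 : ℕ) : ℤ) * β) := by
    refine (W _).sub_mem ?_ haW
    have g := pow_mem_gr hG h.hF m
    rw [nsmul_eq_mul] at g
    have g2 : ((m : ℕ) : ℤ) * ((w : ℤ) + N * β) = ((N * m + 1 : ℕ) : ℤ) * β := by
      push_cast
      linear_combination (-1 : ℤ) * hC.wf
    rw [g2] at g
    exact g
  refine ⟨N + N * m + 1, F * (a - C (1 / (m : k)) * d), ⟨?_, ?_, ?_⟩, ?_⟩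
  · have g1 : a - C (1 / (m : k)) * d ∈ W (((N * m + 1 : ℕ) : ℤ) * β) := by
      refine (W _).sub_mem haW ?_
      rw [← smul_eq_C_mul]
      exact (W _).smul_mem _ hdW
    have g2 := hG.mul _ _ _ _ h.hF g1
    have g3 : (w : ℤ) + N * β + ((N * m + 1 : ℕ) : ℤ) * β =
        (w : ℤ) + ((N + N * m + 1 : ℕ) : ℤ) * β := by
      push_cast
      ring
    rw [g3] at g2
    exact g2
  · rw [map_mul, map_sub, map_mul, hd0, mul_zero, sub_zero, h.tF, ha, map_pow]
    ring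
  · have g1 := newton_dvd a d (C (1 / (m : k))) m hC.mp hcm
    have g2 : (F * (a - C (1 / (m : k)) * d)) ^ m - q ^ ((N + N * m + 1) * m + 1) =
        (a + d) * (a - C (1 / (m : k)) * d) ^ m - a * a ^ m := by
      have g3 : q ^ ((N + N * m + 1) * m + 1) = a * a ^ m := by
        rw [ha]
        ring
      rw [mul_pow, hFm, g3]
    rw [g2, pow_mul]
    exact (pow_dvd_pow_of_dvd hpd 2).trans g1
  · have g1 : F * (a - C (1 / (m : k)) * d) * q ^ N - F * q ^ (N + N * m + 1) =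
        d * (-(C (1 / (m : k)) * F * q ^ N)) := by
      have g2 : q ^ (N + N * m + 1) = a * q ^ N := by
        rw [ha]
        ring
      rw [g2]
      ring
    rw [g1]
    exact hpd.mul_right _

theorem pf_RHO : T_RHO := by
  intro k _ _ _ W H p q α β L _ _ Θ v w m hP hC
  have hG : Gr W := hP.toGr
  have hv0 : v 0 ≠ 0 := hC.ind.ne_zero 0
  have hb : β = (m : ℤ) * w := hC.wf
  refine ⟨?_, ?_⟩
  · obtain ⟨N, n, F, hF, hΘ⟩ := hC.inv 0
    obtain ⟨N', P, hP1, hP2⟩ := hC.img n F hF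
    have h1 : aeval v P = aeval v (X 0 ^ (1 + m * N + N') : MvPolynomial (Fin 3) k) := by
      rw [← hP1, ← hΘ, hC.tf, map_pow, aeval_X]
      ring
    have h2 : P = X 0 ^ (1 + m * N + N') := hC.ind h1
    have h3 : IsWeightedHomogeneous ![(w : ℤ), 0, -α]
        (X 0 ^ (1 + m * N + N') : MvPolynomial (Fin 3) k) ((1 + m * N + N') • (w : ℤ)) :=
      (isWeightedHomogeneous_X k ![(w : ℤ), 0, -α] (0 : Fin 3)).pow _
    rw [h2] at hP2
    have h4 := hP2.inj_right (pow_ne_zero _ (X_ne_zero 0)) h3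
    have h5 : n = (w : ℤ) + N * β := by
      rw [nsmul_eq_mul] at h4
      push_cast at h4
      rw [hb]
      linear_combination h4
    refine ⟨N, F, ⟨?_, hΘ.symm, ?_⟩⟩
    · rw [← h5]
      exact hF
    · rw [pow_one, ← hC.ker, map_sub, map_pow, map_pow, ← hΘ, mul_pow, ← hC.tf]
      ring
  · intro J N F hJ hR
    have key : ∀ i : ℕ, ∃ (N' : ℕ) (F' : Pol k 2), Rh W p q β Θ v w m (J * 2 ^ i) N' F' ∧
        p ^ J ∣ F' * q ^ N - F * q ^ N' := by
      intro i
      induction i with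
      | zero =>
        refine ⟨N, F, ?_, ?_⟩
        · rw [pow_zero, mul_one]
          exact hR
        · rw [sub_self]
          exact dvd_zero _
      | succ i ih =>
        obtain ⟨N1, F1, hR1, hd1⟩ := ih
        obtain ⟨N2, F2, hR2, hd2⟩ := rh_double hG hC (Nat.mul_pos hJ (Nat.two_pow_pos i)) hR1
        refine ⟨N2, F2, ?_, ?_⟩
        · rw [pow_succ, ← mul_assoc]
          exact hR2
        · have e1 : p ^ J ∣ F2 * q ^ N1 - F1 * q ^ N2 :=
            (pow_dvd_pow p (Nat.le_mul_of_pos_right J (Nat.two_pow_pos i))).trans hd2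
          have e2 : p ^ J ∣ q ^ N1 * (F2 * q ^ N - F * q ^ N2) := by
            have e3 : q ^ N1 * (F2 * q ^ N - F * q ^ N2) =
                (F2 * q ^ N1 - F1 * q ^ N2) * q ^ N + (F1 * q ^ N - F * q ^ N1) * q ^ N2 := by
              ring
            rw [e3]
            exact dvd_add (e1.mul_right _) (hd1.mul_right _)
          refine hC.pg.pow_dvd_of_dvd_mul_left J ?_ e2
          exact fun hh => hC.nd (hC.pg.dvd_of_dvd_pow hh)
    intro J' hJJ
    obtain ⟨N', F', h1, h2⟩ := key J'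
    refine ⟨N', F', rh_weaken h1 ?_, h2⟩
    calc J' ≤ 2 ^ J' := Nat.lt_two_pow_self.le
      _ ≤ J * 2 ^ J' := Nat.le_mul_of_pos_left _ hJ

end Pool.Agent.H13.SYA
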